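import Pool.Agent.H88.God.Simple

set_option autoImplicit false

/-!
# Goddyn's conjecture: every admissible weight can be covered after the addition of a constant of
# the order of the square root of the number of vertices

`MGraph V E` is a finite graph with loops and parallel edges, `G.ends e` is the unordered pair of
the ends of `e`, `G.IsCircuit C` says that `C` is the edge set of a circuit; `cut G X` is the set
of the edges with exactly one end in `X`.

Let `G` be a bridgeless graph with `n` vertices and `m` edges, and let `w` be any admissible weight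
(arbitrarily large, zeros allowed, possibly tight at many cuts). Suppose that no circuit of `G` has
more than `L` edges (for instance `L = n`), or only that `w` is a nonnegative real combination of
circuits with at most `L` edges. If

  `N ≥ K (sqrt L + (1 + log L) ^ (3/2) sqrt (log (1 + m)))`

for an absolute constant `K` and `w + N` is eulerian, then `(G, w + N)` has a faithful circuit
cover. If `G` has no parallel edges, then `N ≥ K sqrt n` suffices.

In other words, an eulerian weight `W` has a faithful circuit cover as soon as `W - N` is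
admissible, that is, if `W ≥ N` and `W(e) ≤ W(T - e) - N (|T| - 2)` for all cuts `T` and all edges
`e` of `T`.
-/

namespace Pool.Agent.Results.MP_5dc923_co.AdditiveSlack

open Finset
open Pool.Agent.H126R2.CDC (MGraph)
open Pool.Agent.H655R2.GOD (cut)

theorem result : ∃ K : ℝ, 0 < K ∧
    -- all graphs
    (∀ (V E : Type) [Fintype V] [DecidableEq V] [Fintype E] [DecidableEq E] (G : MGraph V E),
      (∀ X : Finset V, (cut G X).card ≠ 1) → ∀ (w : E → ℕ) (L N : ℕ),
      ((∃ c : Finset E → ℝ, (∀ C, 0 ≤ c C) ∧ (∀ C, c C ≠ 0 → G.IsCircuit C ∧ C.card ≤ L) ∧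
          ∀ e, (w e : ℝ) = ∑ C : Finset E, if e ∈ C then c C else 0) ∨
        ((∀ X : Finset V, ∀ e ∈ cut G X, 2 * w e ≤ ∑ f ∈ cut G X, w f) ∧
          ∀ C, G.IsCircuit C → C.card ≤ L)) →
      (∀ X : Finset V, Even (∑ e ∈ cut G X, (w e + N))) →
      K * (Real.sqrt L + (1 + Real.log L) ^ (3 / 2 : ℝ) *
        Real.sqrt (Real.log (1 + Fintype.card E))) ≤ N →
      ∃ F : Multiset (Finset E), (∀ C ∈ F, G.IsCircuit C) ∧
        ∀ e, F.countP (fun C => e ∈ C) = w e + N) ∧
    -- graphs without parallel edges
    ∀ (V E : Type) [Fintype V] [DecidableEq V] [Fintype E] [DecidableEq E] (G : MGraph V E),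
      (∀ X : Finset V, (cut G X).card ≠ 1) → Function.Injective G.ends →
      ∀ (w : E → ℕ) (N : ℕ),
      (∀ X : Finset V, ∀ e ∈ cut G X, 2 * w e ≤ ∑ f ∈ cut G X, w f) →
      (∀ X : Finset V, Even (∑ e ∈ cut G X, (w e + N))) →
      K * Real.sqrt (Fintype.card V) ≤ N →
      ∃ F : Multiset (Finset E), (∀ C ∈ F, G.IsCircuit C) ∧
        ∀ e, F.countP (fun C => e ∈ C) = w e + N :=
  Pool.Agent.H88.God.slack_main

end Pool.Agent.Results.MP_5dc923_co.AdditiveSlack
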