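import Pool.Agent.H88.TW.Graph

set_option autoImplicit false

/-!
# Goddyn's conjecture for graphs of bounded branch-width (or tree-width) with a constant slack

`MGraph V E` is a finite graph with loops and parallel edges, `G.ends e` is the unordered pair of
the ends of `e`, `G.IsCircuit C` says that `C` is the edge set of a circuit; `cut G X` is the set
of the edges with exactly one end in `X`.

Let `G` be a bridgeless graph with a branch decomposition of width at most `k` and let
`4 N ≥ 16 ^ k`. If `w` is an admissible weight (arbitrarily large, zeros allowed, possibly tight at
many cuts) and `w + N` is eulerian, then `(G, w + N)` has a faithful circuit cover. There is no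
condition that links `N` to the size of `G` or to the values of `w`.

Proof. Put `p = w + N`. Fix a real decomposition of `p` in which every even subgraph has a weight of at least
`2 N / q`, where `q` is the number of all even subgraphs, and an integral decomposition of `p` with
coefficients of both signs, both with the same total `T`. For a linear functional `f` on the cycle
space let `y f` and `n f` be the total weights of the even subgraphs with `f = 1` in these two
decompositions. Replace `n f` by `n f + M k f` with `M = 2 ^ (2 k - 1)` and an integer `k f` such
that the result is as close to `y f` as possible; nothing is changed when `f` is an edge. The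
numbers obtained in this way define, by Fourier inversion, a function on the states of the cycle
space at every node of the branch decomposition; it is integral and nonnegative, and the functions
of different nodes are compatible. So the even subgraphs can be assembled along the tree.
-/

namespace Pool.Agent.Results.MP_5dc923_co.BoundedBranchWidth

open Finset
open Pool.Agent.H126R2.CDC (MGraph)
open Pool.Agent.H655R2.GOD (cut)

/-- The family `𝒯` of edge sets of `G` is (the family of the edge sets below the nodes of) a rooted
branch decomposition of width at most `k`: it contains the set of all edges, every member with at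
least two edges is the disjoint union of two nonempty members, and for every member `A` at most `k`
vertices are ends both of an edge in `A` and of an edge not in `A`. -/
def BranchDecomposition {V E : Type} [Fintype E] [DecidableEq E] (G : MGraph V E) (k : ℕ)
    (𝒯 : Set (Finset E)) : Prop :=
  univ ∈ 𝒯 ∧
  (∀ A ∈ 𝒯, 1 < A.card → ∃ B ∈ 𝒯, ∃ C ∈ 𝒯, B.Nonempty ∧ C.Nonempty ∧ Disjoint B C ∧ B ∪ C = A) ∧
  ∀ A ∈ 𝒯, Set.ncard {u : V | (∃ e ∈ A, u ∈ G.ends e) ∧ ∃ e, e ∉ A ∧ u ∈ G.ends e} ≤ k

theorem result {V E : Type} [Fintype V] [DecidableEq V] [Fintype E] [DecidableEq E]
    (G : MGraph V E) (hG : ∀ X : Finset V, (cut G X).card ≠ 1)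
    (k N : ℕ) (hk : 1 ≤ k) (hN : 16 ^ k ≤ 4 * N)
    (𝒯 : Set (Finset E)) (h𝒯 : BranchDecomposition G k 𝒯) (w : E → ℕ)
    (hadm : ∀ X : Finset V, ∀ e ∈ cut G X, 2 * w e ≤ ∑ f ∈ cut G X, w f)
    (heul : ∀ X : Finset V, Even (∑ e ∈ cut G X, (w e + N))) :
    ∃ F : Multiset (Finset E), (∀ C ∈ F, G.IsCircuit C) ∧
      ∀ e, F.countP (fun C => e ∈ C) = w e + N :=
  Pool.Agent.H88.TW.branch_cover_adm G hG k N hk hN 𝒯 h𝒯 w hadm heul

end Pool.Agent.Results.MP_5dc923_co.BoundedBranchWidth
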