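import Pool.Agent.H88.God.Disc

set_option autoImplicit false

/-!
# Goddyn's conjecture: additive slack depending on the lengths of the circuits only

`MGraph V E` is a finite graph with loops and parallel edges, `G.ends e` is the unordered pair of
the ends of `e`, `G.IsCircuit C` says that `C` is the edge set of a circuit; `cut G X` is the set
of the edges with exactly one end in `X`.

Let `G` be a bridgeless graph and let `w` be an admissible weight (arbitrarily large, zeros
allowed, possibly tight at many cuts). Suppose that no circuit of `G` has more than `L` edges, or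
only that `w` is a nonnegative real combination of circuits with at most `L` edges. If
`N ≥ 8 L + 38` and `w + N` is eulerian, then `(G, w + N)` has a faithful circuit cover. There is no
condition that links `N` to the size of `G` or to the values of `w`.

Proof: the fractional cover is rounded as in the theorem of Beck and Fiala, with an error of less
than `L` on every edge (`Pool.Agent.H88.God.bf_round`), and the remaining near-constant weight is
covered by the library's theorem on weights within a factor of `9 / 7`.
-/

namespace Pool.Agent.Results.MP_5dc923_co.BoundedCircumference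

open Finset
open Pool.Agent.H126R2.CDC (MGraph)
open Pool.Agent.H655R2.GOD (cut)

theorem result {V E : Type} [Fintype V] [DecidableEq V] [Fintype E] [DecidableEq E]
    (G : MGraph V E) (hG : ∀ X : Finset V, (cut G X).card ≠ 1) (w : E → ℕ) (L N : ℕ)
    (hw : (∃ c : Finset E → ℝ, (∀ C, 0 ≤ c C) ∧ (∀ C, c C ≠ 0 → G.IsCircuit C ∧ C.card ≤ L) ∧
          ∀ e, (w e : ℝ) = ∑ C : Finset E, if e ∈ C then c C else 0) ∨
        ((∀ X : Finset V, ∀ e ∈ cut G X, 2 * w e ≤ ∑ f ∈ cut G X, w f) ∧
          ∀ C, G.IsCircuit C → C.card ≤ L))
    (heul : ∀ X : Finset V, Even (∑ e ∈ cut G X, (w e + N))) (hN : 8 * L + 38 ≤ N) :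
    ∃ F : Multiset (Finset E), (∀ C ∈ F, G.IsCircuit C) ∧
      ∀ e, F.countP (fun C => e ∈ C) = w e + N := by
  obtain ⟨v, hv⟩ := G.exists_halves
  have hs : Pool.Agent.H88.God.ShortCone G L w := by
    rcases hw with hw | hw
    · exact hw
    · exact Pool.Agent.H88.God.shortCone_of_adm G v hv L hw.2 w hw.1
  exact Pool.Agent.H88.God.short_cover G v hv
    (fun X => by rw [Pool.Agent.H88.God.card_cut_eq G v hv]; exact hG X) w L hs N heul hN

end Pool.Agent.Results.MP_5dc923_co.BoundedCircumference
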