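import Pool.Agent.H88.God.Pet4

set_option autoImplicit false

/-!
# Goddyn's conjecture fails for all graphs which can be contracted to the Petersen graph

`MGraph V E` is a finite graph with loops and parallel edges, `G.ends e` is the unordered pair of
the ends of `e`, `G.IsCircuit C` says that `C` is the edge set of a circuit; `cut G X` is the set
of the edges with exactly one end in `X`.

Let `φ` be a map from the vertices of `G` to those of the Petersen graph such that every edge of
`G` joins two vertices with the same image or with adjacent images, such that every edge of the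
Petersen graph comes from an edge of `G`, and such that all fibres are connected and bridgeless
(single vertices are allowed). Then for every `m` there is an admissible eulerian weight of `G`
with all values at least `m` which has no faithful circuit cover. In particular such weights exist
on simple graphs all of whose edge cuts are large: the lexicographic products of the Petersen graph
with complete graphs.

Proof. The edges inside the fibres get a large even weight, sometimes plus one; the edges over a rim
edge of the Petersen graph get even weights except for one edge, with the same odd sum `K` for all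
rim edges; over every spoke one edge gets the sum of the weights of all other edges that leave the
fibre. So the cuts of the ten fibres are tight, every circuit which leaves a fibre does so along the
heavy edge, and such a circuit has an even number of edges over the outer rim edges. But these have
total weight `5 K`.
-/

namespace Pool.Agent.Results.MP_5dc923_co.PetersenContractions

open Finset
open Pool.Agent.H126R2.CDC (MGraph)
open Pool.Agent.H655R2.GOD (cut)

/-- The edges of the Petersen graph with vertex set `{0, …, 9}`. -/
def petersen : Fin 15 → Sym2 (Fin 10) :=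
  ![s(0, 1), s(1, 2), s(2, 3), s(3, 4), s(4, 0), s(5, 7), s(7, 9), s(9, 6), s(6, 8), s(8, 5),
    s(0, 5), s(1, 6), s(2, 7), s(3, 8), s(4, 9)]

/-- The map `φ` contracts `G` to the Petersen graph (with parallel edges), and its fibres are
connected and bridgeless. -/
structure Contraction {V E : Type} [Fintype V] [DecidableEq V] [Fintype E] [DecidableEq E]
    (G : MGraph V E) (φ : V → Fin 10) : Prop where
  /-- every edge joins two vertices with the same image or with adjacent images -/
  ends : ∀ e, (Sym2.map φ (G.ends e)).IsDiag ∨ ∃ ε, Sym2.map φ (G.ends e) = petersen ε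
  /-- every edge of the Petersen graph comes from an edge of `G` -/
  onto : ∀ ε, ∃ e, Sym2.map φ (G.ends e) = petersen ε
  /-- the fibres are connected and bridgeless: if some fibre has vertices in `X` and outside of
  `X`, then at least two edges inside fibres leave `X` -/
  conn : ∀ X : Finset V, (∃ u v, φ u = φ v ∧ u ∈ X ∧ v ∉ X) →
    2 ≤ ((cut G X).filter (fun e => (Sym2.map φ (G.ends e)).IsDiag)).card

lemma petersen_eq (ε : Fin 15) : petersen ε = Pool.Agent.H88.Pet.pe ε := by
  revert ε
  decide +kernel

theorem result :
    -- all graphs which can be contracted to the Petersen graph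
    (∀ (V E : Type) [Fintype V] [DecidableEq V] [Fintype E] [DecidableEq E] (G : MGraph V E)
      (φ : V → Fin 10), Contraction G φ → ∀ m : ℕ, ∃ w : E → ℕ,
      (∀ e, m ≤ w e) ∧ (∀ X : Finset V, Even (∑ e ∈ cut G X, w e)) ∧
      (∀ X : Finset V, ∀ e ∈ cut G X, 2 * w e ≤ ∑ f ∈ cut G X, w f) ∧
      ¬ ∃ F : Multiset (Finset E), (∀ C ∈ F, G.IsCircuit C) ∧
        ∀ e, F.countP (fun C => e ∈ C) = w e) ∧
    -- simple graphs with large edge cuts
    ∀ c m : ℕ, ∃ (V E : Type) (_ : Fintype V) (_ : DecidableEq V) (_ : Fintype E)
      (_ : DecidableEq E) (G : MGraph V E) (w : E → ℕ),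
      Function.Injective G.ends ∧ (∀ e, ¬ (G.ends e).IsDiag) ∧
      (∀ X : Finset V, X.Nonempty → X ≠ univ → c ≤ (cut G X).card) ∧
      (∀ e, m ≤ w e) ∧ (∀ X : Finset V, Even (∑ e ∈ cut G X, w e)) ∧
      (∀ X : Finset V, ∀ e ∈ cut G X, 2 * w e ≤ ∑ f ∈ cut G X, w f) ∧
      ¬ ∃ F : Multiset (Finset E), (∀ C ∈ F, G.IsCircuit C) ∧
        ∀ e, F.countP (fun C => e ∈ C) = w e := by
  classical
  refine ⟨?_, ?_⟩
  · intro V E _ _ _ _ G φ h m
    refine Pool.Agent.H88.Pet.exists_weight G φ ⟨fun e => ?_, fun ε => ?_, h.conn⟩ m
    · rcases h.ends e with h1 | ⟨ε, h1⟩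
      · exact Or.inl h1
      · exact Or.inr ⟨ε, by rw [h1, petersen_eq]⟩
    · obtain ⟨e, he⟩ := h.onto ε
      exact ⟨e, by rw [he, petersen_eq]⟩
  · intro c m
    obtain ⟨w, h1, h2, h3, h4⟩ := Pool.Agent.H88.Pet.exists_weight
      (Pool.Agent.H88.Pet.lexG (c + 3)) Prod.fst
      (Pool.Agent.H88.Pet.lex_contr (c + 3) (by omega)) m
    refine ⟨_, _, _, _, _, _, Pool.Agent.H88.Pet.lexG (c + 3), w, ?_, ?_, ?_, h1, h2, h3, h4⟩
    · exact Subtype.val_injective
    · exact fun e => e.2.1
    · intro X hX1 hX2
      have h5 := Pool.Agent.H88.Pet.lex_cuts (c + 3) X hX1 hX2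
      refine le_trans (by omega) (h5.trans (le_of_eq ?_))
      congr

end Pool.Agent.Results.MP_5dc923_co.PetersenContractions
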